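import Pool.Agent.H51.DistMinor

namespace Pool.Agent.Results.MP_0b3830_co.Counter
open Pool.Agent.H51.DistMinorDefs

/-- The conjectured equivalence fails (for `n = 2` and the complement of the 7-cycle). -/
theorem result : ¬ ∀ n : ℕ, 1 ≤ n → ∀ (V : Type) [Fintype V] [DecidableEq V] (G : SimpleGraph V),
    G.Connected → ((∀ φ : Sym2 V → ℝ, (∀ e ∈ G.edgeSet, 0 < φ e) → posEig (wdist G φ) ≤ n) ↔
      ¬ IsMinor (K233 n) G) := by
  intro h
  have h1 := (h 2 (by norm_num) _ _ Pool.Agent.H51.DistMinor.conn).mpr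
    Pool.Agent.H51.DistMinor.no_minor (fun _ => 1) (fun _ _ => one_pos)
  have h2 := Pool.Agent.H51.DistMinor.three_le
  omega

end Pool.Agent.Results.MP_0b3830_co.Counter
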